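import Pool.Agent.Helper60.FF.DefsA

/-!
# FROB: extraction of Frobenius roots of an irreducible polynomial in `F[y][X]`
-/

set_option autoImplicit false

namespace Pool.Agent.Helper60.FF

open Polynomial

theorem frob_isUnit {R S : Type} [CommRing R] [IsDomain R] [CommRing S] [IsDomain S] (f : R →+* S)
    (hf : Function.Injective f) (hu : ∀ a, IsUnit (f a) → IsUnit a) (A : Polynomial R)
    (hA : IsUnit (A.map f)) : IsUnit A := by
  obtain ⟨r, hr, hr'⟩ := Polynomial.isUnit_iff.1 hA
  have h1 : A.natDegree = 0 := by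
    rw [← Polynomial.natDegree_map_eq_of_injective hf, ← hr', natDegree_C]
  obtain ⟨a, ha⟩ := Polynomial.natDegree_eq_zero.1 h1
  rw [← ha, map_C] at hr'
  have h2 : f a = r := (C_injective hr').symm
  rw [← ha]
  exact Polynomial.isUnit_C.2 (hu a (h2 ▸ hr))

theorem frob_root {F : Type} [Field F] [IsAlgClosed F] (p : ℕ) [Fact p.Prime] [CharP F p]
    (c : Polynomial F) (hc : derivative c = 0) : ∃ h : Polynomial F, h ^ p = c := by
  have hp : p.Prime := Fact.out
  refine ⟨(contract p c).map ((frobeniusEquiv F p).symm : F →+* F), ?_⟩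
  rw [← Polynomial.map_frobenius_expand, ← Polynomial.map_expand, Polynomial.map_map]
  have h1 : (frobenius F p).comp ((frobeniusEquiv F p).symm : F →+* F) = RingHom.id F := by
    ext x
    exact frobenius_apply_frobeniusEquiv_symm F p x
  rw [h1, Polynomial.map_id, Polynomial.expand_contract p hc hp.ne_zero]

theorem frob_ind {F : Type} [Field F] [IsAlgClosed F] (p : ℕ) [Fact p.Prime] [CharP F p] (n : ℕ) :
    ∀ T : Polynomial (Polynomial F), (∀ j, (T.coeff j).natDegree ≤ n) → Irreducible T →
      (∃ j, 0 < (T.coeff j).natDegree) →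
      ∃ (S : Polynomial (Polynomial F)) (a : ℕ), Irreducible S ∧ S.natDegree = T.natDegree ∧
        dY S ≠ 0 ∧ ∀ i : ℕ, T.eval (i : Polynomial F) = (S.eval (i : Polynomial F)) ^ (p ^ a) := by
  have hp : p.Prime := Fact.out
  induction n using Nat.strong_induction_on with
  | _ n ih =>
  intro T hT hirr hpos
  by_cases hd : dY T = 0
  · have h1 : ∀ j, ∃ h : Polynomial F, h ^ p = T.coeff j := by
      intro j
      refine frob_root p (T.coeff j) ?_
      rw [← coeff_dY, hd, coeff_zero]
    have h2 : T ∈ Polynomial.lifts (frobenius (Polynomial F) p) := by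
      rw [Polynomial.lifts_iff_coeff_lifts]
      intro j
      obtain ⟨h, hh⟩ := h1 j
      exact ⟨h, hh⟩
    obtain ⟨S₁, hS₁⟩ := (Polynomial.mem_lifts T).1 h2
    have hinj : Function.Injective (frobenius (Polynomial F) p) := frobenius_inj (Polynomial F) p
    have hco : ∀ j, (S₁.coeff j) ^ p = T.coeff j := by
      intro j
      rw [← hS₁, coeff_map]
      rfl
    have hdeg : ∀ j, p * (S₁.coeff j).natDegree = (T.coeff j).natDegree := by
      intro j
      rw [← hco, natDegree_pow]
    have hirr₁ : Irreducible S₁ := by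
      refine ⟨fun hu => hirr.not_isUnit ?_, fun A B hAB => ?_⟩
      · rw [← hS₁]
        exact hu.map (mapRingHom (frobenius (Polynomial F) p))
      · have h3 : T = (A.map (frobenius (Polynomial F) p)) * (B.map (frobenius (Polynomial F) p)) := by
          rw [← Polynomial.map_mul, ← hAB, hS₁]
        have hu : ∀ a : Polynomial F, IsUnit (frobenius (Polynomial F) p a) → IsUnit a := by
          intro a ha
          exact (isUnit_pow_iff hp.ne_zero).1 ha
        rcases hirr.isUnit_or_isUnit h3 with h4 | h4
        · exact Or.inl (frob_isUnit _ hinj hu A h4)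
        · exact Or.inr (frob_isUnit _ hinj hu B h4)
    obtain ⟨j₀, hj₀⟩ := hpos
    have hn : 0 < n := lt_of_lt_of_le hj₀ (hT j₀)
    have hpos₁ : 0 < (S₁.coeff j₀).natDegree := by
      have := hdeg j₀
      by_contra h5
      have h6 : (S₁.coeff j₀).natDegree = 0 := by omega
      rw [h6, mul_zero] at this
      omega
    have hle : ∀ j, (S₁.coeff j).natDegree ≤ n - 1 := by
      intro j
      have h5 := hdeg j
      have h6 := hT j
      have h7 := hp.two_le
      have h8 : 2 * (S₁.coeff j).natDegree ≤ p * (S₁.coeff j).natDegree :=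
        Nat.mul_le_mul_right _ h7
      omega
    obtain ⟨S, a, hS1, hS2, hS3, hS4⟩ := ih (n - 1) (by omega) S₁ hle hirr₁ ⟨j₀, hpos₁⟩
    refine ⟨S, a + 1, hS1, ?_, hS3, ?_⟩
    · rw [hS2, ← hS₁, natDegree_map_eq_of_injective hinj]
    · intro i
      rw [← hS₁, Polynomial.eval_natCast_map, frobenius_def, hS4, ← pow_mul, ← pow_succ]
  · exact ⟨T, 0, hirr, rfl, hd, fun i => by rw [pow_zero, pow_one]⟩

/-- the module FROB -/
theorem st_FROB : ST_FROB := by
  intro F _ _ p hp hchar T hirr hpos
  have : Fact p.Prime := ⟨hp⟩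
  have : CharP F p := hchar
  refine frob_ind p (T.support.sup fun j => (T.coeff j).natDegree) T ?_ hirr hpos
  intro j
  by_cases hj : j ∈ T.support
  · exact Finset.le_sup (f := fun j => (T.coeff j).natDegree) hj
  · rw [notMem_support_iff.1 hj, natDegree_zero]
    exact Nat.zero_le _

end Pool.Agent.Helper60.FF

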