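import Pool.Agent.Helper24.FF.Stmts

/-! Module RK of part F of the full list for MP_866009_co. -/

set_option autoImplicit false

namespace Pool.Agent.Helper24.FF

open Pool.Agent.Helper64.CT Pool.Agent.Helper64.DT Pool.Agent.Helper64.FL
open Pool.Agent.Helper64.HG (Ovl Model Circ IC HellyCircle ChordModel)

private theorem rk_ext (h3 : ST_IPX) {V : Type} {G : SimpleGraph V} {Q : List V} {z a y : V}
    (hQ : Wk G Q) (hz : Q.getLast? = some z) (hza : G.Adj z a) (hy : y = a ∨ G.Adj y a) :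
    ∃ N, Wk G N ∧ (∀ x ∈ Q, x ∈ N) ∧ y ∈ N ∧ ∀ x ∈ N, x ∈ Q ∨ x = a ∨ x = y := by
  obtain ⟨_, _, _, wka, _⟩ := h3 V G
  rcases hy with hy | hy
  · refine ⟨Q ++ [a], ?_, fun x hx => by simp [hx], by simp [hy], fun x hx => ?_⟩
    · rw [wka]
      refine ⟨hQ, ?_, ?_⟩
      · simp [Wk]
      · intro x hx w hw
        rw [hz] at hx
        simp only [Option.mem_def, Option.some.injEq, List.head?_cons] at hx hw
        rw [← hx, ← hw]
        exact hza
    · simp only [List.mem_append, List.mem_singleton] at hx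
      rcases hx with hx | hx
      · exact Or.inl hx
      · exact Or.inr (Or.inl hx)
  · refine ⟨Q ++ [a, y], ?_, fun x hx => by simp [hx], by simp, fun x hx => ?_⟩
    · rw [wka]
      refine ⟨hQ, ?_, ?_⟩
      · simp [Wk, hy.symm]
      · intro x hx w hw
        rw [hz] at hx
        simp only [Option.mem_def, Option.some.injEq, List.head?_cons] at hx hw
        rw [← hx, ← hw]
        exact hza
    · simp only [List.mem_append, List.mem_cons, List.not_mem_nil, or_false] at hx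
      exact hx

private theorem rk_mod {m j : ℕ} (hm : 3 ≤ m) (hj : j < m) :
    (j + 1) % m ≠ j ∧ ((j + 1) % m + 1) % m ≠ j := by
  rcases Nat.lt_or_ge (j + 1) m with h | h
  · rw [Nat.mod_eq_of_lt h]
    refine ⟨by omega, ?_⟩
    rcases Nat.lt_or_ge (j + 1 + 1) m with h' | h'
    · rw [Nat.mod_eq_of_lt h']
      omega
    · have : j + 1 + 1 = m := by omega
      rw [this, Nat.mod_self]
      omega
  · have : j + 1 = m := by omega
    rw [this, Nat.mod_self, Nat.mod_eq_of_lt (by omega : 0 + 1 < m)]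
    omega

theorem st_RK (h1 : ST_CLA) (h2 : ST_NCH) (h3 : ST_IPX) : ST_RK := by
  intro V G S b m n P y f l j hR hNS hj hy hS hyn hyP hyJ hf hl hyf hyl
  obtain ⟨_, _, ipw, wka, wkr⟩ := h3 V G
  have hm : 3 ≤ m := hR.m3
  have hm0 : 0 < m := by omega
  obtain ⟨q1, q2⟩ := rk_mod hm hj
  obtain ⟨J, hJ⟩ : ∃ J, J = (j + 1) % m := ⟨_, rfl⟩
  rw [← hJ] at hyJ hf q1 q2
  have hJm : J < m := by rw [hJ]; exact Nat.mod_lt _ hm0
  obtain ⟨q3, q4⟩ := rk_mod hm hJm
  obtain ⟨J', hJ'⟩ : ∃ J', J' = (J + 1) % m := ⟨_, rfl⟩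
  rw [← hJ'] at q2 q3
  have hJ'm : J' < m := by rw [hJ']; exact Nat.mod_lt _ hm0
  have hfm : f ∈ P J := List.mem_of_mem_head? hf
  have hlm : l ∈ P j := List.mem_of_mem_getLast? hl
  have a1 : G.Adj (n J) f := (hR.fst J hJm f hfm).2 hf
  have a2 : G.Adj (n J) l := by
    have := (hR.lst j hj l hlm).2 hl
    rw [← hJ] at this
    exact this
  have a3 : G.Adj (n J) y := by
    rcases hyn J hJm with h | h
    · exact absurd h hyJ
    · exact h.symm
  obtain ⟨s1, s2⟩ := hR.sep J j hJm hj q1 f hfm l hlm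
  -- head of `P j`
  obtain ⟨z, hz⟩ : ∃ z, (P j).head? = some z := by
    cases hP : P j with
    | nil => rw [hP] at hlm; simp at hlm
    | cons z t => exact ⟨z, rfl⟩
  have hzm : z ∈ P j := List.mem_of_mem_head? hz
  -- last vertex of `P J`
  obtain ⟨w, hw⟩ : ∃ w, (P J).getLast? = some w := by
    cases hP : (P J).getLast? with
    | none => rw [List.getLast?_eq_none_iff] at hP; rw [hP] at hfm; simp at hfm
    | some w => exact ⟨w, rfl⟩
  have hwm : w ∈ P J := List.mem_of_mem_getLast? hw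
  have e1 : G.Adj z (n j) := ((hR.fst j hj z hzm).2 hz).symm
  have e2 : G.Adj w (n J') := by
    have := (hR.lst J hJm w hwm).2 hw
    rw [← hJ'] at this
    exact this.symm
  obtain ⟨N1, w1, m1, y1, k1⟩ := rk_ext h3 (Q := (P j).reverse) (wkr _ (ipw _ (hR.pth j hj)))
    (by rw [List.getLast?_reverse]; exact hz) e1 (hyn j hj)
  obtain ⟨N2, w2, m2, y2, k2⟩ := rk_ext h3 (Q := P J) (ipw _ (hR.pth J hJm)) hw e2 (hyn J' hJ'm)
  have fS : f ∈ S := (hS J hJm).2 f hfm
  have lS : l ∈ S := (hS j hj).2 l hlm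
  have far1 : ∀ x ∈ N1, x ∈ S ∧ x ∈ Far G f := by
    intro x hx
    rcases k1 x hx with h | h | h
    · rw [List.mem_reverse] at h
      obtain ⟨t1, t2⟩ := hR.sep J j hJm hj q1 f hfm x h
      exact ⟨(hS j hj).2 x h, t1.symm, t2⟩
    · rw [h]
      refine ⟨(hS j hj).1, (hR.dis J j hJm hj f hfm).symm, fun h' => ?_⟩
      refine hR.cln J j hJm hj (Ne.symm q1) ?_ f hfm h'.symm
      rw [← hJ']
      exact Ne.symm q2
    · rw [h]
      exact ⟨hy, hyP J hJm f hfm, fun h' => hyf h'.symm⟩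
  have far2 : ∀ x ∈ N2, x ∈ S ∧ x ∈ Far G l := by
    intro x hx
    rcases k2 x hx with h | h | h
    · obtain ⟨t1, t2⟩ := hR.sep J j hJm hj q1 x h l hlm
      exact ⟨(hS J hJm).2 x h, t1, fun h' => t2 h'.symm⟩
    · rw [h]
      refine ⟨(hS J' hJ'm).1, (hR.dis j J' hj hJ'm l hlm).symm, fun h' => ?_⟩
      refine hR.cln j J' hj hJ'm q2 ?_ l hlm h'.symm
      rw [← hJ]
      exact q3
    · rw [h]
      exact ⟨hy, hyP j hj l hlm, fun h' => hyl h'.symm⟩
  have c1 : b f l = b f y := h2 V G S b f N1 hNS fS w1 far1 l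
    (m1 l (List.mem_reverse.2 hlm)) y y1
  have c2 : b l f = b l y := h2 V G S b l N2 hNS lS w2 far2 f (m2 f hfm) y y2
  exact (h1 V G S b hNS).1 (n J) (hS J hJm).1 f fS l lS y hy a1 a2 a3 s1
    (Ne.symm (hyP J hJm f hfm)) (Ne.symm (hyP j hj l hlm)) s2 (fun h => hyf h.symm)
    (fun h => hyl h.symm) c1 c2

end Pool.Agent.Helper24.FF
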